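import Pool.Agent.H1.CNP.EXI
import Pool.Agent.H37.CNQ.Stmts

/-!
# Board `cnq`, row EXS: extension of a place to a finite separable extension
-/

set_option autoImplicit false

namespace Pool.CND

open Polynomial WithZero

section exs

variable {k E : Type} [Field k] [Field E] [Algebra k E] (Q : Place k E)

/-- the valuation ring of a place -/
def exsA : Subalgebra k E where
  carrier := {z | Q.Ge z 0}
  mul_mem' := fun {a b} ha hb => by
    have h : Q.Ge (a * b) (0 + 0) := Q.ge_mul ha hb
    rw [add_zero] at h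
    exact h
  add_mem' := fun {a b} ha hb => Q.ge_add ha hb
  algebraMap_mem' := fun c => Q.ge_const c

theorem exs_mem (z : E) : z ∈ exsA Q ↔ Q.Ge z 0 := Iff.rfl

theorem exs_unit (a : exsA Q) (ha : (a : E) ≠ 0) (h : Q.ord (a : E) = 0) : IsUnit a := by
  have h1 : Q.Ge ((a : E)⁻¹) 0 := Or.inr (by rw [Q.ord_inv ha, h, neg_zero])
  refine IsUnit.of_mul_eq_one ⟨(a : E)⁻¹, h1⟩ ?_
  apply Subtype.ext
  exact mul_inv_cancel₀ ha

theorem exs_dvr : IsDiscreteValuationRing (exsA Q) := by
  have hπ : Q.Ge Q.pi 0 := Or.inr (by rw [Q.ord_pi]; norm_num)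
  apply IsDiscreteValuationRing.ofHasUnitMulPowIrreducibleFactorization
  refine ⟨⟨Q.pi, hπ⟩, ⟨?_, ?_⟩, ?_⟩
  · intro hu
    obtain ⟨b, hb⟩ := hu.exists_right_inv
    have h1 : Q.pi * (b : E) = 1 := congrArg Subtype.val hb
    have hb0 : (b : E) ≠ 0 := by
      intro h0
      rw [h0, mul_zero] at h1
      exact zero_ne_one h1
    have h2 := Q.ord_mul Q.pi b Q.pi_ne hb0
    rw [h1, Q.ord_one, Q.ord_pi] at h2
    have h3 := (Q.ge_iff hb0 0).1 b.2
    omega
  · intro a b hab
    have h1 : Q.pi = (a : E) * (b : E) := congrArg Subtype.val hab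
    have ha0 : (a : E) ≠ 0 := by
      intro h0
      rw [h0, zero_mul] at h1
      exact Q.pi_ne h1
    have hb0 : (b : E) ≠ 0 := by
      intro h0
      rw [h0, mul_zero] at h1
      exact Q.pi_ne h1
    have h2 := Q.ord_mul a b ha0 hb0
    rw [← h1, Q.ord_pi] at h2
    have h3 := (Q.ge_iff ha0 0).1 a.2
    have h4 := (Q.ge_iff hb0 0).1 b.2
    rcases (by omega : Q.ord (a : E) = 0 ∨ Q.ord (b : E) = 0) with h | h
    · exact Or.inl (exs_unit Q a ha0 h)
    · exact Or.inr (exs_unit Q b hb0 h)
  · intro x hx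
    have hx0 : (x : E) ≠ 0 := fun h => hx (Subtype.ext h)
    have h3 := (Q.ge_iff hx0 0).1 x.2
    obtain ⟨n, hn⟩ := Int.eq_ofNat_of_zero_le h3
    have hpn : Q.pi ^ n ≠ 0 := pow_ne_zero n Q.pi_ne
    have h4 : Q.ord ((x : E) / Q.pi ^ n) = 0 := by
      rw [Q.ord_div hx0 hpn, Q.ord_pow Q.pi_ne, Q.ord_pi, hn]
      simp
    have h5 : (x : E) / Q.pi ^ n ≠ 0 := div_ne_zero hx0 hpn
    obtain ⟨u, hu⟩ := exs_unit Q ⟨(x : E) / Q.pi ^ n, Or.inr h4.ge⟩ h5 h4
    refine ⟨n, u, ?_⟩
    rw [hu]
    apply Subtype.ext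
    show Q.pi ^ n * ((x : E) / Q.pi ^ n) = x
    field_simp

theorem exs_frac : IsFractionRing (exsA Q) E := by
  apply IsFractionRing.of_field
  intro z
  by_cases hz : Q.Ge z 0
  · exact ⟨⟨z, hz⟩, 1, by rw [map_one, div_one]; rfl⟩
  · obtain ⟨h0, h1⟩ := Q.not_ge.1 hz
    have h2 : Q.Ge z⁻¹ 0 := Or.inr (by rw [Q.ord_inv h0]; omega)
    refine ⟨1, ⟨z⁻¹, h2⟩, ?_⟩
    have h3 : algebraMap (exsA Q) E ⟨z⁻¹, h2⟩ = z⁻¹ := rfl
    rw [map_one, h3, one_div, inv_inv]

end exs

theorem exs_thm : S_EXS := by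
  intro k L _ _ _ _ E Q hfin hsep
  have hdvr : IsDiscreteValuationRing (exsA Q) := exs_dvr Q
  have hfrA : IsFractionRing (exsA Q) E := exs_frac Q
  let A := exsA Q
  have hdA : IsDedekindDomain A := inferInstance
  have hfr : IsFractionRing (integralClosure A L) L :=
    integralClosure.isFractionRing_of_finite_extension E L
  have hdB : IsDedekindDomain (integralClosure A L) :=
    integralClosure.isDedekindDomain A E L
  let B := integralClosure A L
  have hπ : Q.Ge Q.pi 0 := Or.inr (by rw [Q.ord_pi]; norm_num)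
  let πA : A := ⟨Q.pi, hπ⟩
  have hnu : ∀ a : A, Q.Ge (a : E) 1 → a ∈ nonunits A := by
    intro a ha hu
    obtain ⟨b, hb⟩ := hu.exists_right_inv
    have h1 : (a : E) * (b : E) = 1 := congrArg Subtype.val hb
    have hb0 : (b : E) ≠ 0 := by
      intro h0
      rw [h0, mul_zero] at h1
      exact zero_ne_one h1
    have ha0 : (a : E) ≠ 0 := by
      intro h0
      rw [h0, zero_mul] at h1
      exact zero_ne_one h1
    have h2 := Q.ord_mul a b ha0 hb0
    rw [h1, Q.ord_one] at h2
    have h3 := (Q.ge_iff hb0 0).1 b.2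
    have h4 := (Q.ge_iff ha0 1).1 ha
    omega
  let m := IsLocalRing.maximalIdeal A
  have hm : m.IsMaximal := inferInstance
  have hker : RingHom.ker (algebraMap A B) = ⊥ := by
    rw [← RingHom.injective_iff_ker_eq_bot]
    intro a b hab
    have h1 : algebraMap B L (algebraMap A B a) = algebraMap B L (algebraMap A B b) := by rw [hab]
    rw [← IsScalarTower.algebraMap_apply, ← IsScalarTower.algebraMap_apply] at h1
    have h2 : ((a : E) : L) = ((b : E) : L) := h1
    exact Subtype.ext (Subtype.ext h2)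
  obtain ⟨R, hR, hRm⟩ := Ideal.exists_ideal_over_maximal_of_isIntegral (S := B) m
    (by rw [hker]; exact bot_le)
  have hsB : ∀ a : A, algebraMap B L (algebraMap A B a) = ((a : E) : L) := by
    intro a
    rw [← IsScalarTower.algebraMap_apply]
    rfl
  have hmR : ∀ a : A, a ∈ nonunits A → algebraMap A B a ∈ R := by
    intro a ha
    have : a ∈ R.comap (algebraMap A B) := by
      rw [hRm]
      exact (IsLocalRing.mem_maximalIdeal a).2 ha
    exact this
  have hR0 : R ≠ ⊥ := by
    intro h
    have h1 := hmR πA (hnu πA (Or.inr (by rw [show (πA : E) = Q.pi from rfl, Q.ord_pi])))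
    rw [h, Ideal.mem_bot] at h1
    have h2 := hsB πA
    rw [h1, map_zero] at h2
    apply Q.pi_ne
    exact Subtype.ext h2.symm
  let vv : IsDedekindDomain.HeightOneSpectrum B := ⟨R, hR.isPrime, hR0⟩
  let w : Valuation L ℤᵐ⁰ := vv.valuation L
  have hwA : ∀ a : E, Q.Ge a 0 → w (a : L) ≤ 1 := by
    intro a ha
    have h1 := vv.valuation_le_one (K := L) (algebraMap A B ⟨a, ha⟩)
    exact h1
  have hwm : ∀ a : E, Q.Ge a 1 → w (a : L) < 1 := by
    intro a ha
    have ha0 : Q.Ge a 0 := Q.ge_mono ha (by norm_num)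
    have h1 := (vv.valuation_lt_one_iff_mem (K := L) (algebraMap A B ⟨a, ha0⟩)).2
      (hmR ⟨a, ha0⟩ (hnu _ ha))
    exact h1
  have hcE : ∀ c : k, algebraMap k L c = ((algebraMap k E c : E) : L) := fun c => rfl
  have hwk : ∀ c : k, w (algebraMap k L c) ≤ 1 := by
    intro c
    rw [hcE]
    exact hwA _ (Q.ge_const c)
  have hwk1 : ∀ c : k, c ≠ 0 → w (algebraMap k L c) = 1 := by
    intro c hc
    refine le_antisymm (hwk c) ?_
    have h1 : w (algebraMap k L c) * w (algebraMap k L c⁻¹) = 1 := by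
      rw [← map_mul, ← map_mul, mul_inv_cancel₀ hc, map_one, map_one]
    calc (1 : ℤᵐ⁰) = w (algebraMap k L c) * w (algebraMap k L c⁻¹) := h1.symm
      _ ≤ w (algebraMap k L c) * 1 := mul_le_mul' le_rfl (hwk _)
      _ = _ := mul_one _
  have hw0 : ∀ z : L, z ≠ 0 → w z ≠ 0 := fun z hz => (Valuation.ne_zero_iff _).2 hz
  -- residues
  have hres : ∀ a : E, Q.Ge a 0 → ∃ c : k, Q.Ge (a - algebraMap k E c) 1 := by
    intro a ha
    by_cases ha0 : a = 0
    · exact ⟨0, Or.inl (by rw [ha0, map_zero, sub_zero])⟩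
    · obtain ⟨c, hc⟩ := Q.residue a ha0 ((Q.ge_iff ha0 0).1 ha)
      refine ⟨c, ?_⟩
      rcases hc with hc | hc
      · exact Or.inl (by rw [← hc, sub_self])
      · exact Or.inr (by omega)
  have hpoly : ∀ z : L, w z ≤ 1 → ∃ g : k[X], g ≠ 0 ∧ w (aeval z g) < 1 := by
    intro z hz
    have halg : IsAlgebraic E z := Algebra.IsAlgebraic.isAlgebraic z
    obtain ⟨p, hp0, hp⟩ := halg
    -- a coefficient of smallest order
    obtain ⟨j, hj, hjmin⟩ := Finset.exists_min_image p.support (fun i => Q.ord (p.coeff i))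
      (Polynomial.support_nonempty.2 hp0)
    have hj0 : p.coeff j ≠ 0 := Polynomial.mem_support_iff.1 hj
    have hcoef : ∀ i, Q.Ge (p.coeff i / p.coeff j) 0 := by
      intro i
      by_cases hi : p.coeff i = 0
      · exact Or.inl (by rw [hi, zero_div])
      · refine Or.inr ?_
        rw [Q.ord_div hi hj0]
        have := hjmin i (Polynomial.mem_support_iff.2 hi)
        omega
    choose c hc using fun i => hres _ (hcoef i)
    refine ⟨∑ i ∈ Finset.range (p.natDegree + 1), C (c i) * X ^ i, ?_, ?_⟩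
    · intro h0
      have h1 := congrArg (fun q => q.coeff j) h0
      simp only [Polynomial.finsetSum_coeff, Polynomial.coeff_C_mul, Polynomial.coeff_X_pow,
        Polynomial.coeff_zero, mul_ite, mul_one, mul_zero] at h1
      rw [Finset.sum_ite_eq, if_pos (Finset.mem_range.2
        (Nat.lt_succ_of_le (Polynomial.le_natDegree_of_ne_zero hj0)))] at h1
      have h2 := hc j
      rw [h1, map_zero, sub_zero, div_self hj0] at h2
      have h3 := (Q.ge_iff one_ne_zero 1).1 h2
      rw [Q.ord_one] at h3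
      omega
    · have h1 : aeval z (∑ i ∈ Finset.range (p.natDegree + 1), C (c i) * X ^ i) =
          ∑ i ∈ Finset.range (p.natDegree + 1),
            -(((p.coeff i / p.coeff j - algebraMap k E (c i) : E) : L) * z ^ i) := by
        have h2 : ∑ i ∈ Finset.range (p.natDegree + 1), ((p.coeff i : E) : L) * z ^ i = 0 := by
          rw [Polynomial.aeval_eq_sum_range] at hp
          rw [← hp]
          exact Finset.sum_congr rfl fun i _ => by rw [Algebra.smul_def]; rfl
        have h3 : ∑ i ∈ Finset.range (p.natDegree + 1),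
            (((p.coeff i / p.coeff j : E) : L)) * z ^ i = 0 := by
          have h4 : ∑ i ∈ Finset.range (p.natDegree + 1),
              (((p.coeff i / p.coeff j : E) : L)) * z ^ i =
              (((p.coeff j)⁻¹ : E) : L) *
                ∑ i ∈ Finset.range (p.natDegree + 1), ((p.coeff i : E) : L) * z ^ i := by
            rw [Finset.mul_sum]
            refine Finset.sum_congr rfl fun i _ => ?_
            rw [div_eq_mul_inv]
            push_cast
            ring
          rw [h4, h2, mul_zero]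
        rw [map_sum]
        have h5 : ∀ i, -(((p.coeff i / p.coeff j - algebraMap k E (c i) : E) : L) * z ^ i) =
            algebraMap k L (c i) * z ^ i - (((p.coeff i / p.coeff j : E) : L)) * z ^ i := by
          intro i
          rw [hcE]
          push_cast
          ring
        simp only [h5]
        rw [Finset.sum_sub_distrib, h3, sub_zero]
        refine Finset.sum_congr rfl fun i _ => ?_
        rw [map_mul, aeval_C, map_pow, aeval_X]
      rw [h1]
      refine Valuation.map_sum_lt _ one_ne_zero fun i _ => ?_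
      rw [Valuation.map_neg, map_mul, map_pow]
      calc w ((p.coeff i / p.coeff j - algebraMap k E (c i) : E) : L) * w z ^ i
          ≤ w ((p.coeff i / p.coeff j - algebraMap k E (c i) : E) : L) * 1 :=
            mul_le_mul' le_rfl (pow_le_one' hz i)
        _ = w ((p.coeff i / p.coeff j - algebraMap k E (c i) : E) : L) := mul_one _
        _ < 1 := hwm _ (hc i)
  let P : Place k L := {
    ord := fun z => -log (w z)
    ord_mul := by
      intro a b ha hb
      show -log (w (a * b)) = -log (w a) + -log (w b)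
      rw [map_mul, log_mul (hw0 a ha) (hw0 b hb)]
      ring
    ord_add := by
      intro a b ha hb hab
      show min (-log (w a)) (-log (w b)) ≤ -log (w (a + b))
      rcases le_max_iff.1 (w.map_add a b) with h | h
      · have := (log_le_log (hw0 _ hab) (hw0 _ ha)).2 h
        exact (min_le_left _ _).trans (by omega)
      · have := (log_le_log (hw0 _ hab) (hw0 _ hb)).2 h
        exact (min_le_right _ _).trans (by omega)
    ord_surj := by
      obtain ⟨π, hπ⟩ := vv.valuation_exists_uniformizer L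
      refine ⟨π, ?_, ?_⟩
      · rintro rfl
        rw [map_zero] at hπ
        exact exp_ne_zero hπ.symm
      · show -log (w π) = 1
        have : w π = exp (-1 : ℤ) := hπ
        rw [this, log_exp]
        norm_num
    ord_const := by
      intro c hc
      show -log (w (algebraMap k L c)) = 0
      rw [hwk1 c hc, log_one, neg_zero]
    residue := by
      intro z hz0 hz
      have hz1 : w z ≤ 1 := by
        have h1 : log (w z) ≤ 0 := by
          have : (0 : ℤ) ≤ -log (w z) := hz
          omega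
        have h2 := (log_le_iff_le_exp (hw0 z hz0)).1 h1
        rwa [exp_zero] at h2
      obtain ⟨g, hg0, hg⟩ := hpoly z hz1
      obtain ⟨c, hc⟩ := exi_root w hwk hwk1 z hz1 _ g rfl hg0 hg
      refine ⟨c, ?_⟩
      by_cases hzc : z - algebraMap k L c = 0
      · exact Or.inl (sub_eq_zero.1 hzc)
      · right
        show 0 < -log (w (z - algebraMap k L c))
        have h1 : log (w (z - algebraMap k L c)) < 0 := by
          rw [log_lt_iff_lt_exp (hw0 _ hzc), exp_zero]
          exact hc
        omega }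
  have hPE : ∀ a : E, a ≠ 0 → Q.ord a = 0 → P.ord (a : L) = 0 := by
    intro a ha h
    have h1 : w (a : L) ≤ 1 := hwA a (Or.inr h.ge)
    have h2 : w ((a⁻¹ : E) : L) ≤ 1 := hwA a⁻¹ (Or.inr (by rw [Q.ord_inv ha, h, neg_zero]))
    have h3 : w (a : L) * w ((a⁻¹ : E) : L) = 1 := by
      rw [← map_mul]
      have : (a : L) * ((a⁻¹ : E) : L) = ((a * a⁻¹ : E) : L) := by push_cast; ring
      rw [this, mul_inv_cancel₀ ha]
      simp
    have h4 : w (a : L) = 1 := by
      refine le_antisymm h1 ?_
      calc (1 : ℤᵐ⁰) = w (a : L) * w ((a⁻¹ : E) : L) := h3.symm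
        _ ≤ w (a : L) * 1 := mul_le_mul' le_rfl h2
        _ = _ := mul_one _
    show -log (w (a : L)) = 0
    rw [h4, log_one, neg_zero]
  have hπ0 : (Q.pi : L) ≠ 0 := fun h => Q.pi_ne (Subtype.ext h)
  have hPπ : 0 < P.ord (Q.pi : L) := by
    show 0 < -log (w (Q.pi : L))
    have h1 : w (Q.pi : L) < 1 := hwm _ (Or.inr (by rw [Q.ord_pi]))
    have h2 : log (w (Q.pi : L)) < 0 := by
      rw [log_lt_iff_lt_exp (hw0 _ hπ0), exp_zero]
      exact h1
    omega
  refine ⟨P, (P.ord (Q.pi : L)).toNat, by omega, ?_⟩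
  intro z hz
  rw [Int.toNat_of_nonneg hPπ.le]
  have hpn : Q.pi ^ (Q.ord z) ≠ 0 := zpow_ne_zero _ Q.pi_ne
  have h1 : Q.ord (z / Q.pi ^ (Q.ord z)) = 0 := by
    rw [Q.ord_div hz hpn, Q.ord_zpow Q.pi_ne, Q.ord_pi]
    ring
  have h2 := hPE _ (div_ne_zero hz hpn) h1
  have hzL : (z : L) ≠ 0 := fun h => hz (Subtype.ext h)
  have h3 : ((z / Q.pi ^ (Q.ord z) : E) : L) = (z : L) / (Q.pi : L) ^ (Q.ord z) := by
    push_cast
    rfl
  rw [h3, P.ord_div hzL (zpow_ne_zero _ hπ0), P.ord_zpow hπ0] at h2
  linarith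

end Pool.CND
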